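import Pool.Agent.Helper10.RC.Props

/-!
# MP_b55b7c_an: packet Pieces
-/

open scoped ENNReal NNReal InnerProductSpace ComplexOrder
open Filter Topology

attribute [-instance] CStarMatrix.instAlgebra CStarMatrix.instModule CStarMatrix.instSMul
  CStarMatrix.instMulAction CStarMatrix.instDistribMulAction

noncomputable section
namespace Helper46RC
open RC
universe u

section
variable {R : Type u} [NormedRing R] [StarRing R] [CStarRing R]

theorem pi1 (v : R) (h : IsStarProjection (star v * v)) : v * star v * v = v := by
  have hi : star v * v * (star v * v) = star v * v := h.isIdempotentElem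
  have h0 : star (v - v * star v * v) * (v - v * star v * v) = 0 := by
    simp only [star_sub, star_mul, star_star]
    have e1 : (star v - star v * (v * star v)) * (v - v * star v * v)
      = star v * v - star v * v * (star v * v) - star v * v * (star v * v)
        + star v * v * (star v * v) * (star v * v) := by noncomm_ring
    rw [e1, hi, hi]; noncomm_ring
  have h1 : v - v * star v * v = 0 := by
    rwa [CStarRing.star_mul_self_eq_zero_iff] at h0
  exact (sub_eq_zero.mp h1).symm

theorem pi2 (htwo : ∀ x : R, x + x = 0 → x = 0) (v E : R) (h : IsStarProjection (star v * v)) (hE : IsStarProjection E)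
    (he : star v * v + v * star v = E) :
    v * v = 0 ∧ E * v = v ∧ v * E = v := by
  have h1 := pi1 v h
  have hi : star v * v * (star v * v) = star v * v := h.isIdempotentElem
  have hq : v * star v * (v * star v) = v * star v := by
    rw [← mul_assoc, h1]
  have hEE : E * E = E := hE.isIdempotentElem
  have h2 : star v * v * (v * star v) + v * star v * (star v * v) = 0 := by
    have e1 : (star v * v + v * star v) * (star v * v + v * star v)
      = star v * v * (star v * v) + v * star v * (v * star v) +
        (star v * v * (v * star v) + v * star v * (star v * v)) := by noncomm_ring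
    rw [he, hEE, hi, hq, he] at e1
    exact (left_eq_add.mp e1)
  set P := star v * v with hP
  set Q := v * star v with hQ
  have h3 : P * Q + P * Q * P = 0 := by
    have e : P * (P * Q + Q * P) = P * P * Q + P * Q * P := by noncomm_ring
    rw [h2, mul_zero, hi] at e
    exact e.symm
  have h4 : P * Q * P + Q * P = 0 := by
    have e : (P * Q + Q * P) * P = P * Q * P + Q * (P * P) := by noncomm_ring
    rw [h2, zero_mul, hi] at e
    exact e.symm
  have h5 : P * Q = Q * P := by
    have : P * Q - Q * P = (P * Q + P * Q * P) - (P * Q * P + Q * P) := by noncomm_ring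
    rw [h3, h4, sub_zero] at this
    exact sub_eq_zero.mp this
  have h6 : P * Q = 0 := by
    rw [← h5] at h2
    exact htwo _ h2
  have h7 : v * v = 0 := by
    have : v * v = v * (P * Q) * v := by
      calc v * v = (v * star v * v) * (v * star v * v) := by rw [h1]
        _ = v * (P * Q) * v := by rw [hP, hQ]; noncomm_ring
    rw [this, h6]; simp
  refine ⟨h7, ?_, ?_⟩
  · rw [← he, add_mul, hP, hQ, h1, mul_assoc, h7, mul_zero, zero_add]
  · rw [← he, mul_add, hP, hQ, ← mul_assoc, h1, ← mul_assoc, h7, zero_mul, add_zero]

end

theorem piecesP (hh : HalvP.{u}) : PiecesP.{u} := by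
  intro H _ _ _ S ξ hS hab k
  induction k with
  | zero =>
    refine ⟨fun _ => 1, 1, fun _ => Set.one_mem_centralizer, Set.one_mem_centralizer,
      IsStarProjection.one _, ?_, ?_⟩
    · intro i l
      have : i = l := by
        have h1 : (2 : ℕ) ^ 0 = 1 := pow_zero 2
        apply Fin.ext
        have := i.2
        have := l.2
        omega
      simp [this]
    · simp
  | succ k ih =>
    obtain ⟨V, E, hV, hE, hEp, hVV, hsum⟩ := ih
    obtain ⟨v, hv, hvp, hve⟩ := hh H S ξ hS hab E hE hEp
    obtain ⟨hvv, hEv, hvE⟩ := pi2 (fun x hx => by
      have h2 : (2 : ℂ) • x = 0 := by rw [two_smul]; exact hx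
      exact (smul_eq_zero.mp h2).resolve_left two_ne_zero) v E hvp hEp hve
    have hvs : star v ∈ S.centralizer := by
      have := Set.star_mem_centralizer' (s := S) (fun a ha => hS.star a ha) hv
      exact this
    have hi : star v * v * (star v * v) = star v * v := hvp.isIdempotentElem
    have hssa : star (star v * v) = star v * v := hvp.isSelfAdjoint
    have hVE : ∀ i, V i * E = V i := by
      intro i
      have h1 : star (V i) * V i = E := by simpa using hVV i i
      have := pi1 (V i) (by rw [h1]; exact hEp)
      rw [mul_assoc, h1] at this
      exact this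
    have hEs : star E = E := hEp.isSelfAdjoint
    have hsvv : star v * star v = 0 := by rw [← star_mul, hvv, star_zero]
    have hPv : star v * v * v = 0 := by rw [mul_assoc, hvv, mul_zero]
    have hsvP : star v * (star v * v) = 0 := by rw [← mul_assoc, hsvv, zero_mul]
    have hEP : E * (star v * v) = star v * v := by
      rw [← hve, add_mul, hi, mul_assoc v (star v), hsvP, mul_zero, add_zero]
    let c : Fin 2 → (H →L[ℂ] H) := ![star v * v, v]
    have hc : ∀ a b, star (c a) * E * c b = if a = b then star v * v else 0 := by
      intro a b
      fin_cases a <;> fin_cases b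
      · simp only [c]
        simp [hssa, hEP, hi, mul_assoc (star v * v) E]
      · simp only [c]
        simp [hssa, mul_assoc (star v * v) E, hEv, hPv]
      · simp only [c]
        simp [mul_assoc (star v) E, hEP, hsvP]
      · simp only [c]
        simp [mul_assoc (star v) E, hEv]
    let e : Fin (2 ^ (k + 1)) ≃ Fin (2 ^ k) × Fin 2 :=
      (finCongr (pow_succ 2 k)).trans finProdFinEquiv.symm
    refine ⟨fun i => V (e i).1 * c (e i).2, star v * v, ?_, ?_, hvp, ?_, ?_⟩
    · intro i
      apply Set.mul_mem_centralizer (hV _)
      have : ∀ a, c a ∈ S.centralizer := by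
        intro a
        fin_cases a
        · exact Set.mul_mem_centralizer hvs hv
        · exact hv
      exact this _
    · exact Set.mul_mem_centralizer hvs hv
    · intro i l
      simp only
      rw [star_mul]
      have e1 : star (c (e i).2) * star (V (e i).1) * (V (e l).1 * c (e l).2)
        = star (c (e i).2) * (star (V (e i).1) * V (e l).1) * c (e l).2 := by
        simp only [mul_assoc]
      rw [e1, hVV]
      by_cases h1 : (e i).1 = (e l).1
      · rw [if_pos h1, hc]
        by_cases h2 : (e i).2 = (e l).2
        · rw [if_pos h2, if_pos (e.injective (Prod.ext h1 h2))]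
        · rw [if_neg h2, if_neg]
          intro h; exact h2 (by rw [h])
      · rw [if_neg h1, if_neg]
        · simp
        · intro h; exact h1 (by rw [h])
    · have h1 : ∀ i, V (e i).1 * c (e i).2 * star (V (e i).1 * c (e i).2)
        = (fun p : Fin (2 ^ k) × Fin 2 => V p.1 * (c p.2 * star (c p.2)) * star (V p.1)) (e i) := by
        intro i
        simp only [star_mul, mul_assoc]
      simp only [h1]
      rw [Equiv.sum_comp e (fun p : Fin (2 ^ k) × Fin 2 =>
        V p.1 * (c p.2 * star (c p.2)) * star (V p.1)), Fintype.sum_prod_type]
      rw [← hsum]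
      apply Finset.sum_congr rfl
      intro i _
      rw [Fin.sum_univ_two]
      have h2 : c 0 * star (c 0) + c 1 * star (c 1) = E := by
        simp only [c]
        simp only [Matrix.cons_val_zero, Matrix.cons_val_one, hssa, hi]
        exact hve
      rw [← add_mul, ← mul_add, h2, hVE]

end Helper46RC
end
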